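import Pool.Agent.Y258.SD.Stmts
import Pool.Agent.H935R2.PS.A2

set_option autoImplicit false

/-!
# Assembly over supports: (A7) from (A2), (A5), (A6a) and (A8) from (A3), (A6a)
-/

namespace Pool.Agent.Y255.SD

open Finset Pool.Agent.H935R2.PS Pool.Agent.Y258

section ext
variable {q : ℕ} {I : Type} [Fintype I] [DecidableEq I]

/-- extension by zero -/
def ex (S : Finset I) (h : S → ZMod q) : I → ZMod q := fun o => if ho : o ∈ S then h ⟨o, ho⟩ else 0

lemma ex_mem (S : Finset I) (h : S → ZMod q) (a : S) : ex S h a = h a := by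
  unfold ex; rw [dif_pos a.2]

lemma ex_notMem (S : Finset I) (h : S → ZMod q) {o : I} (ho : o ∉ S) : ex S h o = 0 := by
  unfold ex; rw [dif_neg ho]

lemma ex_restrict (H : I → ZMod q) (S : Finset I) (hS : ∀ o, o ∈ S ↔ H o ≠ 0) :
    ex S (fun a : S => H a) = H := by
  funext o
  by_cases ho : o ∈ S
  · exact ex_mem S _ ⟨o, ho⟩
  · rw [ex_notMem S _ ho]
    have := (hS o).not.1 ho
    rw [not_not] at this
    exact this.symm

lemma sum_supp [NeZero q] {M : Type} [AddCommMonoid M] (P : (I → ZMod q) → Prop)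
    [DecidablePred P] [∀ S : Finset I, DecidablePred (fun h : S → ZMod q => (∀ a, h a ≠ 0) ∧ P (ex S h))]
    (F : (I → ZMod q) → M) :
    ∑ H ∈ (univ : Finset (I → ZMod q)).filter P, F H =
      ∑ S : Finset I, ∑ h ∈ (univ : Finset (S → ZMod q)).filter
        (fun h => (∀ a, h a ≠ 0) ∧ P (ex S h)), F (ex S h) := by
  rw [← Finset.sum_fiberwise (s := (univ : Finset (I → ZMod q)).filter P)
    (g := fun H => univ.filter (fun o => H o ≠ 0)) (f := F)]
  refine Finset.sum_congr rfl fun S _ => ?_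
  have key : ∀ H : I → ZMod q, univ.filter (fun o => H o ≠ 0) = S → ∀ o, o ∈ S ↔ H o ≠ 0 := by
    intro H hS o
    rw [← hS, mem_filter]
    simp
  refine Finset.sum_nbij' (i := fun H => fun a : S => H a) (j := fun h => ex S h) ?_ ?_ ?_ ?_ ?_
  · intro H hH
    rw [mem_filter, mem_filter] at hH
    obtain ⟨⟨_, hP⟩, hS⟩ := hH
    rw [mem_filter]
    refine ⟨mem_univ _, ?_, ?_⟩
    · intro a
      exact (key H hS a).1 a.2
    · rw [ex_restrict H S (key H hS)]; exact hP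
  · intro h hh
    rw [mem_filter] at hh
    rw [mem_filter, mem_filter]
    refine ⟨⟨mem_univ _, hh.2.2⟩, ?_⟩
    ext o
    rw [mem_filter]
    constructor
    · intro ho
      by_contra hc
      exact ho.2 (ex_notMem S h hc)
    · intro ho
      refine ⟨mem_univ _, ?_⟩
      rw [ex_mem S h ⟨o, ho⟩]
      exact hh.2.1 _
  · intro H hH
    rw [mem_filter, mem_filter] at hH
    exact ex_restrict H S (key H hH.2)
  · intro h _
    funext a
    exact ex_mem S h a
  · intro H hH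
    rw [mem_filter, mem_filter] at hH
    rw [ex_restrict H S (key H hH.2)]

lemma prod_ex {M : Type} [CommMonoid M] (S : Finset I) (h : S → ZMod q) (g : I → ZMod q → M) :
    ∏ o, g o (ex S h o) = (∏ a : S, g a (h a)) * ∏ o ∈ Sᶜ, g o 0 := by
  rw [← Finset.prod_mul_prod_compl S]
  congr 1
  · rw [← Finset.prod_coe_sort S]
    refine Finset.prod_congr rfl fun a _ => ?_
    rw [ex_mem]
  · refine Finset.prod_congr rfl fun o ho => ?_
    rw [ex_notMem S h (mem_compl.1 ho)]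

lemma sum_ex {M : Type} [AddCommMonoid M] (S : Finset I) (h : S → ZMod q) (g : I → ZMod q → M)
    (h0 : ∀ o, g o 0 = 0) :
    ∑ o, g o (ex S h o) = ∑ a : S, g a (h a) := by
  rw [← Finset.sum_add_sum_compl S]
  have h1 : ∑ o ∈ Sᶜ, g o (ex S h o) = 0 := Finset.sum_eq_zero fun o ho => by
    rw [ex_notMem S h (mem_compl.1 ho), h0]
  rw [h1, add_zero, ← Finset.sum_coe_sort S]
  refine Finset.sum_congr rfl fun a _ => ?_
  rw [ex_mem]

lemma dl_zero : dl (0 : ZMod q) = 0 := by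
  unfold dl nn; simp

lemma sz_ex (S : Finset I) (h : S → ZMod q) (c : ZMod q) :
    sz (fun o => c * ex S h o) = sz (fun a => c * h a) := by
  unfold sz
  exact sum_ex S h (fun _ x => dl (c * x)) (fun _ => by rw [mul_zero]; exact dl_zero)

lemma Bd_ex (D K0 : ℕ) (S : Finset I) (h : S → ZMod q) (c : ZMod q) :
    Bd D K0 (fun o => c * ex S h o) ↔ Bd D K0 (fun a => c * h a) := by
  unfold Bd; rw [sz_ex]

end ext

section one
variable {q : ℕ} [hq : Fact q.Prime]

lemma nn_pos {x : ZMod q} (hx : x ≠ 0) : 1 ≤ nn x := by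
  unfold nn
  rw [Nat.one_le_iff_ne_zero, Ne, Int.natAbs_eq_zero, ZMod.valMinAbs_eq_zero]
  exact hx

lemma nn_le (x : ZMod q) : 2 * nn x ≤ q := by
  have := ZMod.natAbs_valMinAbs_le x
  unfold nn
  omega

omit hq in
lemma La_pos (h3 : 3 ≤ q) : 1 ≤ La q := by
  unfold La
  exact Nat.log_pos (by norm_num) (by omega)

lemma dl_lt (h3 : 3 ≤ q) (x : ZMod q) : dl x + 1 ≤ La q := by
  have h1 := nn_le x
  have h2 : q < 2 ^ (La q + 1) := Nat.lt_pow_succ_log_self (by norm_num) q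
  have hL := La_pos h3
  unfold dl
  have h4 : nn x < 2 ^ (La q) := by
    rw [pow_succ] at h2; omega
  by_cases h0 : nn x = 0
  · rw [h0]; simp; exact hL
  · have := Nat.log_lt_of_lt_pow h0 h4
    omega

lemma dl_one : dl (1 : ZMod q) = 0 := by
  have h := hq.out.two_le
  unfold dl nn
  have h1 : ((1 : ℕ) : ZMod q).valMinAbs = (1 : ℕ) := ZMod.valMinAbs_natCast_of_le_half (by omega)
  rw [Nat.cast_one] at h1
  rw [h1]
  simp

/-- a vector without zero entries and with at most `D` entries has a bad multiple -/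
lemma small_bad (h3 : 3 ≤ q) {κ : Type} [Fintype κ] [DecidableEq κ] (a0 : κ) (D K0 : ℕ)
    (hD : Fintype.card κ ≤ D) (hK : K0 ≤ La q) (h : κ → ZMod q) (hh : ∀ a, h a ≠ 0) :
    ∃ c : ZMod q, c ≠ 0 ∧ Bd D K0 (fun a => c * h a) := by
  refine ⟨(h a0)⁻¹, inv_ne_zero (hh a0), ?_⟩
  unfold Bd sz
  have hL := La_pos h3
  rw [← Finset.add_sum_erase univ _ (mem_univ a0)]
  have h1 : dl ((h a0)⁻¹ * h a0) = 0 := by rw [inv_mul_cancel₀ (hh a0)]; exact dl_one
  rw [h1, zero_add]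
  have h2 : ∑ x ∈ univ.erase a0, dl ((h a0)⁻¹ * h x) ≤ (Fintype.card κ - 1) * La q := by
    refine (Finset.sum_le_card_nsmul _ _ (La q) (fun x _ => ?_)).trans ?_
    · have := dl_lt h3 ((h a0)⁻¹ * h x); omega
    · rw [Finset.card_erase_of_mem (mem_univ _), Finset.card_univ, smul_eq_mul]
  have hc : 1 ≤ Fintype.card κ := Fintype.card_pos_iff.2 ⟨a0⟩
  calc ∑ x ∈ univ.erase a0, dl ((h a0)⁻¹ * h x) + K0
      ≤ (Fintype.card κ - 1) * La q + La q := add_le_add h2 hK
    _ = Fintype.card κ * La q := by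
        conv_rhs => rw [← Nat.sub_add_cancel hc]
        ring
    _ ≤ D * La q := Nat.mul_le_mul_right _ hD

end one

section four
variable {q : ℕ} [hq : Fact q.Prime]

lemma norm_char_sub4 (v : ZMod q) :
    4 * (nn v : ℝ) / q ≤ ‖ZMod.stdAddChar v - 1‖ := by
  have hq : (0 : ℝ) < q := by exact_mod_cast Nat.pos_of_ne_zero (NeZero.ne q)
  have h1 : ZMod.stdAddChar v = Complex.exp (Complex.I * ((2 * Real.pi * v.valMinAbs / q : ℝ) : ℂ)) := by
    conv_lhs => rw [← ZMod.coe_valMinAbs v]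
    rw [ZMod.stdAddChar_coe]
    congr 1
    push_cast
    ring
  rw [h1, Complex.norm_exp_I_mul_ofReal_sub_one]
  have h2 : (2 * Real.pi * v.valMinAbs / q : ℝ) / 2 = Real.pi * v.valMinAbs / q := by ring
  rw [h2, norm_mul, Real.norm_eq_abs, Real.norm_eq_abs, abs_of_pos (by norm_num : (0:ℝ) < 2)]
  have h3 : |Real.pi * v.valMinAbs / q| = Real.pi * (nn v) / q := by
    rw [abs_div, abs_mul, abs_of_pos Real.pi_pos, abs_of_pos hq]
    congr 2
    unfold nn
    rw [Nat.cast_natAbs]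
    push_cast
    rfl
  have h4 : (nn v : ℝ) ≤ q / 2 := by
    have h5 : nn v ≤ q / 2 := ZMod.natAbs_valMinAbs_le v
    have h6 : ((q / 2 : ℕ) : ℝ) ≤ (q : ℝ) / 2 := Nat.cast_div_le
    exact le_trans (by exact_mod_cast h5) h6
  have h5 : |Real.pi * v.valMinAbs / q| ≤ Real.pi / 2 := by
    rw [h3, div_le_iff₀ hq]
    have := Real.pi_pos
    nlinarith
  have h6 := Real.mul_abs_le_abs_sin h5
  rw [h3] at h6
  have h7 : 2 / Real.pi * (Real.pi * (nn v) / q) = 2 * (nn v : ℝ) / q := by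
    have := Real.pi_ne_zero
    field_simp
  rw [h7] at h6
  have h8 : 4 * (nn v : ℝ) / q = 2 * (2 * (nn v : ℝ) / q) := by ring
  rw [h8]
  linarith

lemma Fc_zero (t : ℕ) (φ : ℝ) : Fc (q := q) t φ 0 = (((t + φ) / q : ℝ) : ℂ) := by
  unfold Fc
  simp

lemma Fc_zero_le {t : ℕ} {φ : ℝ} (ht : t < q) (h0 : 0 ≤ φ) (h1 : φ ≤ 1) :
    0 ≤ (t + φ) / (q : ℝ) ∧ (t + φ) / (q : ℝ) ≤ 1 := by
  have hq' : (0 : ℝ) < q := by exact_mod_cast Nat.pos_of_ne_zero (NeZero.ne q)
  refine ⟨by positivity, ?_⟩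
  rw [div_le_one hq']
  have : (t : ℝ) + 1 ≤ q := by exact_mod_cast ht
  linarith

lemma norm_Fc_zero {t : ℕ} {φ : ℝ} (ht : t < q) (h0 : 0 ≤ φ) (h1 : φ ≤ 1) :
    ‖Fc (q := q) t φ 0‖ ≤ 1 := by
  obtain ⟨h2, h3⟩ := Fc_zero_le (q := q) ht h0 h1
  rw [Fc_zero, Complex.norm_real, Real.norm_of_nonneg h2]
  exact h3

lemma norm_Fc {t : ℕ} {φ : ℝ} (h0 : 0 ≤ φ) (h1 : φ ≤ 1) {x : ZMod q} (hx : x ≠ 0) :
    ‖Fc t φ x‖ ≤ 1 / (nn x : ℝ) := by
  have hq' : (0 : ℝ) < q := by exact_mod_cast Nat.pos_of_ne_zero (NeZero.ne q)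
  have hn : (1 : ℝ) ≤ nn x := by exact_mod_cast nn_pos hx
  have hn2 : 2 * (nn x : ℝ) ≤ q := by exact_mod_cast nn_le x
  have e1 : ∑ j ∈ Icc 1 t, (ZMod.stdAddChar (x * (j : ZMod q)) : ℂ) =
      ∑ j ∈ Icc 1 t, (ZMod.stdAddChar x : ℂ) ^ j :=
    Finset.sum_congr rfl fun j _ => TA2.char_pow x j
  have h4 := TA2.geom _ (TA2.norm_char x) t
  have h5 := norm_char_sub4 x
  have h6 : ‖∑ j ∈ Icc 1 t, (ZMod.stdAddChar x : ℂ) ^ j‖ ≤ q / (2 * nn x) := by
    rw [le_div_iff₀ (by positivity)]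
    have h7 : ‖∑ j ∈ Icc 1 t, (ZMod.stdAddChar x : ℂ) ^ j‖ * (4 * (nn x : ℝ) / q) ≤ 2 :=
      (mul_le_mul_of_nonneg_left h5 (norm_nonneg _)).trans h4
    rw [← mul_div_assoc, div_le_iff₀ hq'] at h7
    linarith
  unfold Fc
  rw [e1, norm_div, Complex.norm_natCast, div_le_div_iff₀ hq' (by positivity), one_mul]
  have h8 : ‖∑ j ∈ Icc 1 t, (ZMod.stdAddChar x : ℂ) ^ j + (φ : ℂ)‖ ≤ q / (2 * nn x) + 1 := by
    refine (norm_add_le _ _).trans (add_le_add h6 ?_)
    rw [Complex.norm_real, Real.norm_of_nonneg h0]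
    exact h1
  have h9 : (q / (2 * nn x) + 1) * (nn x : ℝ) = q / 2 + nn x := by
    field_simp
  calc _ ≤ (q / (2 * nn x) + 1) * (nn x : ℝ) := mul_le_mul_of_nonneg_right h8 (by positivity)
    _ ≤ q := by rw [h9]; linarith

lemma sum_Fc {t : ℕ} (φ : ℝ) (ht : t < q) : ∑ x : ZMod q, Fc t φ x = (φ : ℂ) := by
  have hq' : (q : ℂ) ≠ 0 := by exact_mod_cast (NeZero.ne q)
  unfold Fc
  rw [← Finset.sum_div, Finset.sum_add_distrib, Finset.sum_comm]
  have h1 : ∀ j ∈ Icc 1 t, ∑ x : ZMod q, (ZMod.stdAddChar (x * (j : ZMod q)) : ℂ) = 0 := by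
    intro j hj
    rw [TA2.sum_char', if_neg]
    intro h0
    rw [ZMod.natCast_eq_zero_iff] at h0
    rw [mem_Icc] at hj
    have := Nat.le_of_dvd (by omega) h0
    omega
  rw [Finset.sum_eq_zero h1, zero_add, Finset.sum_const, Finset.card_univ, ZMod.card, nsmul_eq_mul]
  field_simp

open Classical in
lemma norm_sum_Fc {t : ℕ} {φ : ℝ} (ht : t < q) (h0 : 0 ≤ φ) (h1 : φ ≤ 1) :
    ‖∑ x ∈ (univ : Finset (ZMod q)).filter (fun x => x ≠ 0), Fc t φ x‖ ≤ 1 := by
  have h2 := sum_Fc (q := q) φ ht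
  rw [← Finset.sum_filter_add_sum_filter_not univ (fun x : ZMod q => x ≠ 0)] at h2
  have h3 : ∑ x ∈ (univ : Finset (ZMod q)).filter (fun x => ¬ x ≠ 0), Fc t φ x = Fc (q := q) t φ 0 := by
    have : (univ : Finset (ZMod q)).filter (fun x => ¬ x ≠ 0) = {0} := by
      ext x; simp
    rw [this, Finset.sum_singleton]
  rw [h3, Fc_zero] at h2
  have h4 : ∑ x ∈ (univ : Finset (ZMod q)).filter (fun x => x ≠ 0), Fc t φ x =
      ((φ - (t + φ) / q : ℝ) : ℂ) := by
    rw [Complex.ofReal_sub, ← h2]; ring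
  rw [h4, Complex.norm_real, Real.norm_eq_abs, abs_le]
  obtain ⟨h5, h6⟩ := Fc_zero_le (q := q) ht h0 h1
  constructor <;> linarith

open Classical in
/-- the complete sum over vectors without zero entries -/
lemma norm_full {κ : Type} [Fintype κ] [DecidableEq κ] {t : κ → ℕ} {φ : κ → ℝ} (ht : ∀ a, t a < q)
    (h0 : ∀ a, 0 ≤ φ a) (h1 : ∀ a, φ a ≤ 1) :
    ‖∑ h ∈ (univ : Finset (κ → ZMod q)).filter (fun h => ∀ a, h a ≠ 0),
      ∏ a, Fc (t a) (φ a) (h a)‖ ≤ 1 := by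
  have e : (univ : Finset (κ → ZMod q)).filter (fun h => ∀ a, h a ≠ 0) =
      Fintype.piFinset (fun _ : κ => (univ : Finset (ZMod q)).filter (fun x => x ≠ 0)) := by
    ext h
    rw [mem_filter, Fintype.mem_piFinset]
    simp
  rw [e, ← Finset.prod_univ_sum, norm_prod]
  exact Finset.prod_le_one (fun _ _ => norm_nonneg _) fun a _ => norm_sum_Fc (ht a) (h0 a) (h1 a)

/-- a vector parallel over `ℚ` to a bad vector has a bad multiple -/
lemma BdP_mul {κ : Type} [Fintype κ] [DecidableEq κ] (a0 : κ) {D K0 : ℕ} {h : κ → ZMod q}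
    (hh : ∀ a, h a ≠ 0) (hb : BdP D K0 h) : ∃ c : ZMod q, c ≠ 0 ∧ Bd D K0 (fun a => c * h a) := by
  obtain ⟨h', h1, h2, h3⟩ := hb
  refine ⟨h' a0 / h a0, div_ne_zero (h1 a0) (hh a0), ?_⟩
  have e : (fun a => h' a0 / h a0 * h a) = h' := by
    funext a
    have h4 := congrArg (Int.cast : ℤ → ZMod q) (h2 a a0)
    push_cast at h4
    have := hh a0
    field_simp
    rw [mul_comm (h' a0), h4]
  rw [e]
  exact h3

lemma wt_eq_wm {κ : Type} [Fintype κ] {h : κ → ZMod q} (hh : ∀ a, h a ≠ 0) : wt h = wm h := by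
  unfold wt wm
  exact Finset.prod_congr rfl fun a _ => by rw [TA2.mx_eq _ (hh a)]

lemma wm_nonneg {κ : Type} [Fintype κ] (h : κ → ZMod q) : 0 ≤ wm h := by
  unfold wm
  exact Finset.prod_nonneg fun a _ => div_nonneg zero_le_one (zero_le_one.trans (TA2.one_le_mx _))

lemma wm_ex {I : Type} [Fintype I] [DecidableEq I] (S : Finset I) (h : S → ZMod q) :
    wm (ex S h) = wm h := by
  unfold wm
  rw [prod_ex S h (fun _ x => 1 / mx x)]
  have : mx (0 : ZMod q) = 1 := by unfold mx nn; simp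
  rw [this]
  simp

open Classical in
/-- the part of (A7) with a given support -/
lemma part7 (h3 : 3 ≤ q) {κ : Type} [Fintype κ] [DecidableEq κ] (a0 : κ) {D K0 : ℕ} (hD : 1 ≤ D)
    (hK : K0 ≤ La q) {t : κ → ℕ} {φ : κ → ℝ} (ht : ∀ a, t a < q)
    (h0 : ∀ a, 0 ≤ φ a) (h1 : ∀ a, φ a ≤ 1) {B2 B5 : ℝ} (hB2 : 0 ≤ B2) (hB5 : 0 ≤ B5)
    (H5 : D < Fintype.card κ →
      ‖∑ h ∈ (univ : Finset (κ → ZMod q)).filter (fun h => (∀ a, h a ≠ 0) ∧ BdP D K0 h),
        ∏ a, Fc (t a) (φ a) (h a)‖ ≤ B5)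
    (H2 : D < Fintype.card κ →
      ∑ h ∈ (univ : Finset (κ → ZMod q)).filter (fun h => (∀ a, h a ≠ 0) ∧ ¬ BdP D K0 h ∧
        ∃ c : ZMod q, c ≠ 0 ∧ Bd D K0 (fun a => c * h a)), wt h ≤ B2) :
    ‖∑ h ∈ (univ : Finset (κ → ZMod q)).filter (fun h => (∀ a, h a ≠ 0) ∧
        ∃ c : ZMod q, c ≠ 0 ∧ Bd D K0 (fun a => c * h a)), ∏ a, Fc (t a) (φ a) (h a)‖ ≤
      1 + B5 + B2 := by
  rcases le_or_gt (Fintype.card κ) D with hc | hc
  · have e : (univ : Finset (κ → ZMod q)).filter (fun h => (∀ a, h a ≠ 0) ∧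
        ∃ c : ZMod q, c ≠ 0 ∧ Bd D K0 (fun a => c * h a)) =
        (univ : Finset (κ → ZMod q)).filter (fun h => ∀ a, h a ≠ 0) := by
      refine Finset.filter_congr fun h _ => ⟨fun h => h.1, fun hh => ⟨hh, ?_⟩⟩
      exact small_bad h3 a0 D K0 hc hK h hh
    rw [e]
    have := norm_full (q := q) ht h0 h1
    linarith
  · have H5' := H5 hc
    have H2' := H2 hc
    rw [← Finset.sum_filter_add_sum_filter_not _ (fun h : κ → ZMod q => BdP D K0 h),
      Finset.filter_filter, Finset.filter_filter]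
    have e1 : (univ : Finset (κ → ZMod q)).filter (fun h => ((∀ a, h a ≠ 0) ∧
        ∃ c : ZMod q, c ≠ 0 ∧ Bd D K0 (fun a => c * h a)) ∧ BdP D K0 h) =
        (univ : Finset (κ → ZMod q)).filter (fun h => (∀ a, h a ≠ 0) ∧ BdP D K0 h) :=
      Finset.filter_congr fun h _ =>
        ⟨fun h => ⟨h.1.1, h.2⟩, fun h => ⟨⟨h.1, BdP_mul a0 h.1 h.2⟩, h.2⟩⟩
    have e2 : (univ : Finset (κ → ZMod q)).filter (fun h => ((∀ a, h a ≠ 0) ∧
        ∃ c : ZMod q, c ≠ 0 ∧ Bd D K0 (fun a => c * h a)) ∧ ¬ BdP D K0 h) =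
        (univ : Finset (κ → ZMod q)).filter (fun h => (∀ a, h a ≠ 0) ∧ ¬ BdP D K0 h ∧
        ∃ c : ZMod q, c ≠ 0 ∧ Bd D K0 (fun a => c * h a)) :=
      Finset.filter_congr fun h _ =>
        ⟨fun h => ⟨h.1.1, h.2, h.1.2⟩, fun h => ⟨⟨h.1, h.2.2⟩, h.2.1⟩⟩
    rw [e1, e2]
    refine (norm_add_le _ _).trans ?_
    have h7 : ‖∑ h ∈ (univ : Finset (κ → ZMod q)).filter (fun h => (∀ a, h a ≠ 0) ∧ ¬ BdP D K0 h ∧
        ∃ c : ZMod q, c ≠ 0 ∧ Bd D K0 (fun a => c * h a)), ∏ a, Fc (t a) (φ a) (h a)‖ ≤ B2 := by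
      refine (norm_sum_le _ _).trans (le_trans (Finset.sum_le_sum fun h hh => ?_) H2')
      rw [mem_filter] at hh
      rw [norm_prod]
      unfold wt
      exact Finset.prod_le_prod (fun _ _ => norm_nonneg _) fun a _ => norm_Fc (h0 a) (h1 a) (hh.2.1 a)
    linarith

end four

lemma uu_pos (q : ℕ) : 1 ≤ uu q := by unfold uu; omega

theorem A7_of (h2 : St_A2) (h5 : St_A5) : St_A7 := by
  classical
  intro n
  have h2' : ∀ m : ℕ, _ := fun m => h2 (m + 2) (by omega)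
  have h5' : ∀ m : ℕ, _ := fun m => h5 (m + 2) (by omega)
  choose C2 hC2 using h2'
  choose C5 hC5 using h5'
  set CC2 : ℕ := ∑ m ∈ range (n + 2), C2 m with hCC2
  set CC5 : ℕ := ∑ m ∈ range (n + 2), ⌈C5 m⌉₊ with hCC5
  have hc2 : ∀ m, m < n + 2 → C2 m ≤ CC2 := fun m hm =>
    Finset.single_le_sum (f := C2) (fun _ _ => Nat.zero_le _) (mem_range.2 hm)
  have hc5 : ∀ m, m < n + 2 → C5 m ≤ CC5 := fun m hm => (Nat.le_ceil _).trans (by
    exact_mod_cast Finset.single_le_sum (f := fun m => ⌈C5 m⌉₊) (fun _ _ => Nat.zero_le _)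
      (mem_range.2 hm))
  refine ⟨3 + 2 ^ (n + 3) * (1 + CC5 + CC2), ?_⟩
  intro q _ hS hq D K0 t φ hD1 hDn hK0 hKL ht hφ0 hφ1
  have hCle : CC2 ≤ 3 + 2 ^ (n + 3) * (1 + CC5 + CC2) := by
    have : 1 * (1 + CC5 + CC2) ≤ 2 ^ (n + 3) * (1 + CC5 + CC2) :=
      Nat.mul_le_mul_right _ Nat.one_le_two_pow
    omega
  have h3 : 3 ≤ q := le_trans (Nat.le_add_right _ _) hq
  have hL : (1 : ℝ) ≤ La q := by exact_mod_cast La_pos h3
  have hu : (1 : ℝ) ≤ uu q := by exact_mod_cast uu_pos q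
  have hLp : ∀ k : ℕ, (1 : ℝ) ≤ (La q : ℝ) ^ k := fun k => one_le_pow₀ hL
  have hup : (1 : ℝ) ≤ (uu q : ℝ) ^ 2 := one_le_pow₀ hu
  set X : ℝ := (La q : ℝ) ^ (n + 1) * (uu q : ℝ) ^ 2 with hX
  have hX1 : 1 ≤ X := by
    rw [hX]; nlinarith [hLp (n + 1)]
  rw [sum_supp]
  refine (norm_sum_le _ _).trans ?_
  have key : ∀ S : Finset (Option (Fin (n + 2))),
      ‖∑ h ∈ (univ : Finset (S → ZMod q)).filter (fun h => (∀ a, h a ≠ 0) ∧
        (ex S h none ≠ 0 ∧ ∃ c : ZMod q, c ≠ 0 ∧ Bd D K0 (fun o => c * ex S h o))),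
        ∏ o, Fc (t o) (φ o) (ex S h o)‖ ≤ (1 + CC5 + CC2) * X := by
    intro S
    by_cases hSn : none ∈ S
    · have e : (univ : Finset (S → ZMod q)).filter (fun h => (∀ a, h a ≠ 0) ∧
          (ex S h none ≠ 0 ∧ ∃ c : ZMod q, c ≠ 0 ∧ Bd D K0 (fun o => c * ex S h o))) =
          (univ : Finset (S → ZMod q)).filter (fun h => (∀ a, h a ≠ 0) ∧
            ∃ c : ZMod q, c ≠ 0 ∧ Bd D K0 (fun a => c * h a)) := by
        refine Finset.filter_congr fun h _ => ?_
        simp only [Bd_ex]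
        refine and_congr_right fun hh => ⟨fun h => h.2, fun h' => ⟨?_, h'⟩⟩
        rw [ex_mem S h ⟨none, hSn⟩]
        exact hh _
      rw [e]
      have e2 : ∑ h ∈ (univ : Finset (S → ZMod q)).filter (fun h => (∀ a, h a ≠ 0) ∧
            ∃ c : ZMod q, c ≠ 0 ∧ Bd D K0 (fun a => c * h a)),
          ∏ o, Fc (t o) (φ o) (ex S h o) =
          (∑ h ∈ (univ : Finset (S → ZMod q)).filter (fun h => (∀ a, h a ≠ 0) ∧
            ∃ c : ZMod q, c ≠ 0 ∧ Bd D K0 (fun a => c * h a)),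
            ∏ a : S, Fc (t a) (φ a) (h a)) * ∏ o ∈ Sᶜ, Fc (q := q) (t o) (φ o) 0 := by
        rw [Finset.sum_mul]
        exact Finset.sum_congr rfl fun h _ => prod_ex S h (fun o x => Fc (t o) (φ o) x)
      rw [e2, norm_mul]
      have h8 : ‖∏ o ∈ Sᶜ, Fc (q := q) (t o) (φ o) 0‖ ≤ 1 := by
        rw [norm_prod]
        exact Finset.prod_le_one (fun _ _ => norm_nonneg _) fun o _ =>
          norm_Fc_zero (ht o) (hφ0 o) (hφ1 o)
      have hcard : Fintype.card S ≤ n + 3 := by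
        rw [Fintype.card_coe]
        refine (Finset.card_le_univ S).trans ?_
        simp
      have h9 : ‖∑ h ∈ (univ : Finset (S → ZMod q)).filter (fun h => (∀ a, h a ≠ 0) ∧
            ∃ c : ZMod q, c ≠ 0 ∧ Bd D K0 (fun a => c * h a)),
            ∏ a : S, Fc (t a) (φ a) (h a)‖ ≤ 1 + CC5 + CC2 * X := by
        refine part7 h3 ⟨none, hSn⟩ hD1 hKL (t := fun a : S => t a) (φ := fun a : S => φ a)
          (fun a => ht a) (fun a => hφ0 a) (fun a => hφ1 a) (by positivity) (by positivity) ?_ ?_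
        · intro hlt
          obtain ⟨m, hm⟩ : ∃ m, Fintype.card S = m + 2 := ⟨Fintype.card S - 2, by omega⟩
          refine ((hC5 m).2 q h3 S hm D K0 _ _ (fun a => ht a) (fun a => hφ0 a)
            (fun a => hφ1 a)).trans (hc5 m (by omega))
        · intro hlt
          obtain ⟨m, hm⟩ : ∃ m, Fintype.card S = m + 2 := ⟨Fintype.card S - 2, by omega⟩
          have h10 := hC2 m q hS (((hc2 m (by omega)).trans hCle).trans hq) S hm D K0 hD1
            (by omega) ((Nat.mul_le_mul_right _ ((hc2 m (by omega)).trans hCle)).trans hK0)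
          refine h10.trans ?_
          have h11 : ((C2 m : ℕ) : ℝ) ≤ (CC2 : ℝ) := by exact_mod_cast hc2 m (by omega)
          have h12 : (La q : ℝ) ^ (m + 2 - 2) ≤ (La q : ℝ) ^ (n + 1) :=
            pow_le_pow_right₀ hL (by omega)
          rw [hX, ← mul_assoc]
          refine mul_le_mul_of_nonneg_right ?_ (by positivity)
          exact mul_le_mul h11 h12 (by positivity) (by positivity)
      calc _ ≤ (1 + CC5 + CC2 * X) * 1 := mul_le_mul h9 h8 (norm_nonneg _) (by positivity)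
        _ ≤ (1 + CC5 + CC2) * X := by
          have : (0 : ℝ) ≤ CC5 := Nat.cast_nonneg _
          nlinarith
    · have e : (univ : Finset (S → ZMod q)).filter (fun h => (∀ a, h a ≠ 0) ∧
          (ex S h none ≠ 0 ∧ ∃ c : ZMod q, c ≠ 0 ∧ Bd D K0 (fun o => c * ex S h o))) = ∅ := by
        refine Finset.filter_eq_empty_iff.2 fun h _ hh => ?_
        exact hh.2.1 (ex_notMem S h hSn)
      rw [e, Finset.sum_empty, norm_zero]
      positivity
  refine (Finset.sum_le_card_nsmul _ _ _ fun S _ => key S).trans ?_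
  have hcard : (univ : Finset (Finset (Option (Fin (n + 2))))).card = 2 ^ (n + 3) := by
    rw [Finset.card_univ, Fintype.card_finset]
    simp
  rw [hcard, nsmul_eq_mul, hX]
  push_cast
  have h20 : (0 : ℝ) ≤ (La q : ℝ) ^ (n + 1) * (uu q : ℝ) ^ 2 := by positivity
  nlinarith

theorem A8_of (h3' : St_A3) (h6 : St_A6a) : St_A8 := by
  classical
  intro n
  obtain ⟨C3, hC3⟩ := h3' (n + 2) (by omega)
  choose C6 hC6 using h6
  set CC6 : ℕ := ∑ m ∈ range (n + 2), ⌈C6 m⌉₊ with hCC6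
  have hc6 : ∀ m, m < n + 2 → C6 m ≤ CC6 := fun m hm => (Nat.le_ceil _).trans (by
    exact_mod_cast Finset.single_le_sum (f := fun m => ⌈C6 m⌉₊) (fun _ _ => Nat.zero_le _)
      (mem_range.2 hm))
  refine ⟨3 + 2 ^ (n + 3) * (CC6 + C3), ?_⟩
  intro q _ hS hq D K0 a0 hD1 hDn hK0 hKL
  have hCle : C3 ≤ 3 + 2 ^ (n + 3) * (CC6 + C3) := by
    have : 1 * (CC6 + C3) ≤ 2 ^ (n + 3) * (CC6 + C3) :=
      Nat.mul_le_mul_right _ Nat.one_le_two_pow
    omega
  have h3 : 3 ≤ q := le_trans (Nat.le_add_right _ _) hq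
  have hL : (1 : ℝ) ≤ La q := by exact_mod_cast La_pos h3
  set X : ℝ := (La q : ℝ) ^ (n + 1) with hX
  have hX1 : 1 ≤ X := one_le_pow₀ hL
  rw [sum_supp]
  have key : ∀ S : Finset (Option (Fin (n + 2))),
      ∑ h ∈ (univ : Finset (S → ZMod q)).filter (fun h => (∀ a, h a ≠ 0) ∧
        (ex S h none ≠ 0 ∧ ex S h (some a0) = 0 ∧
          ∀ c : ZMod q, c ≠ 0 → ¬ Bd D K0 (fun o => c * ex S h o))),
        wm (ex S h) * min 1 (∑ c ∈ (univ : Finset (ZMod q)).filter (fun c => c ≠ 0),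
        (2:ℝ) ^ (D * La q) / 2 ^ (K0 + sz (fun o => c * ex S h o))) ≤ (CC6 + C3) * X := by
    intro S
    simp only [sz_ex, Bd_ex, wm_ex]
    by_cases hSn : none ∈ S ∧ some a0 ∉ S
    · obtain ⟨hS1, hS2⟩ := hSn
      have e : (univ : Finset (S → ZMod q)).filter (fun h => (∀ a, h a ≠ 0) ∧
          (ex S h none ≠ 0 ∧ ex S h (some a0) = 0 ∧
            ∀ c : ZMod q, c ≠ 0 → ¬ Bd D K0 (fun o => c * h o))) =
          (univ : Finset (S → ZMod q)).filter (fun h => (∀ a, h a ≠ 0) ∧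
            ∀ c : ZMod q, c ≠ 0 → ¬ Bd D K0 (fun o => c * h o)) := by
        refine Finset.filter_congr fun h _ => ?_
        refine and_congr_right fun hh => ⟨fun h => h.2.2, fun h' => ⟨?_, ex_notMem S h hS2, h'⟩⟩
        rw [ex_mem S h ⟨none, hS1⟩]
        exact hh _
      rw [e]
      have hcard : Fintype.card S ≤ n + 2 := by
        rw [Fintype.card_coe]
        have : S ⊆ univ.erase (some a0) := fun x hx => by
          rw [mem_erase]
          exact ⟨fun h => hS2 (h ▸ hx), mem_univ _⟩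
        refine (Finset.card_le_card this).trans ?_
        rw [Finset.card_erase_of_mem (mem_univ _), Finset.card_univ]
        simp
      rcases Nat.lt_or_ge (Fintype.card S) (n + 2) with hlt | hge
      · have h10 := (hC6 (Fintype.card S)).2 q h3 S rfl
        have h11 : ∑ h ∈ (univ : Finset (S → ZMod q)).filter (fun h => (∀ a, h a ≠ 0) ∧
            ∀ c : ZMod q, c ≠ 0 → ¬ Bd D K0 (fun o => c * h o)),
            wm h * min 1 (∑ c ∈ (univ : Finset (ZMod q)).filter (fun c => c ≠ 0),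
              (2:ℝ) ^ (D * La q) / 2 ^ (K0 + sz (fun a => c * h a))) ≤
            ∑ h : S → ZMod q, wm h := by
          refine (Finset.sum_le_sum fun h _ => ?_).trans
            (Finset.sum_le_sum_of_subset_of_nonneg (Finset.filter_subset _ _)
              fun h _ _ => wm_nonneg h)
          exact mul_le_of_le_one_right (wm_nonneg h) (min_le_left _ _)
        refine h11.trans (h10.trans ?_)
        have h12 : (La q : ℝ) ^ Fintype.card S ≤ X := pow_le_pow_right₀ hL (by omega)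
        have h13 := hc6 _ hlt
        calc C6 (Fintype.card S) * (La q : ℝ) ^ Fintype.card S
            ≤ CC6 * X := mul_le_mul h13 h12 (by positivity) (by positivity)
          _ ≤ (CC6 + C3) * X := by
            refine mul_le_mul_of_nonneg_right ?_ (by positivity)
            have : (0 : ℝ) ≤ C3 := Nat.cast_nonneg _
            linarith
      · have hceq : Fintype.card S = n + 2 := le_antisymm hcard hge
        rcases Nat.lt_or_ge D (n + 2) with hD | hD
        · have h10 := hC3 q hS (hCle.trans hq) S hceq D K0 hD1 hD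
            ((Nat.mul_le_mul_right _ hCle).trans hK0)
          have h14 : ∑ h ∈ (univ : Finset (S → ZMod q)).filter (fun h => (∀ a, h a ≠ 0) ∧
              ∀ c : ZMod q, c ≠ 0 → ¬ Bd D K0 (fun o => c * h o)),
              wm h * min 1 (∑ c ∈ (univ : Finset (ZMod q)).filter (fun c => c ≠ 0),
                (2:ℝ) ^ (D * La q) / 2 ^ (K0 + sz (fun a => c * h a))) =
              ∑ h ∈ (univ : Finset (S → ZMod q)).filter (fun h => (∀ a, h a ≠ 0) ∧
              ∀ c : ZMod q, c ≠ 0 → ¬ Bd D K0 (fun a => c * h a)),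
              wt h * min 1 (∑ c ∈ (univ : Finset (ZMod q)).filter (fun c => c ≠ 0),
                (2:ℝ) ^ (D * La q) / 2 ^ (K0 + sz (fun a => c * h a))) := by
            refine Finset.sum_congr rfl fun h hh => ?_
            rw [mem_filter] at hh
            rw [wt_eq_wm hh.2.1]
          rw [h14]
          refine h10.trans ?_
          have h15 : n + 2 - 1 = n + 1 := by omega
          rw [h15]
          refine mul_le_mul_of_nonneg_right ?_ (by positivity)
          have : (0 : ℝ) ≤ CC6 := Nat.cast_nonneg _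
          linarith
        · have e3 : (univ : Finset (S → ZMod q)).filter (fun h => (∀ a, h a ≠ 0) ∧
              ∀ c : ZMod q, c ≠ 0 → ¬ Bd D K0 (fun o => c * h o)) = ∅ := by
            refine Finset.filter_eq_empty_iff.2 fun h _ hh => ?_
            obtain ⟨c, hc, hb⟩ := small_bad h3 (⟨none, hS1⟩ : S) D K0 (by omega) hKL h hh.1
            exact hh.2 c hc hb
          rw [e3, Finset.sum_empty]
          positivity
    · have e : (univ : Finset (S → ZMod q)).filter (fun h => (∀ a, h a ≠ 0) ∧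
          (ex S h none ≠ 0 ∧ ex S h (some a0) = 0 ∧
            ∀ c : ZMod q, c ≠ 0 → ¬ Bd D K0 (fun o => c * h o))) = ∅ := by
        refine Finset.filter_eq_empty_iff.2 fun h _ hh => ?_
        refine hSn ⟨?_, ?_⟩
        · by_contra hc
          exact hh.2.1 (ex_notMem S h hc)
        · intro hc
          have := hh.2.2.1
          rw [ex_mem S h ⟨some a0, hc⟩] at this
          exact hh.1 _ this
      rw [e, Finset.sum_empty]
      positivity
  refine (Finset.sum_le_card_nsmul _ _ _ fun S _ => key S).trans ?_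
  have hcard : (univ : Finset (Finset (Option (Fin (n + 2))))).card = 2 ^ (n + 3) := by
    rw [Finset.card_univ, Fintype.card_finset]
    simp
  rw [hcard, nsmul_eq_mul]
  push_cast
  have h20 : (0 : ℝ) ≤ X := by positivity
  nlinarith

end Pool.Agent.Y255.SD
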